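import Pool.Agent.Work.MP_223b32_es.Interface

/-!
# Block INTP: integral polynomials from integral power sums
-/

namespace Pool.Agent.Work.ES

open Finset Polynomial

namespace INTP

theorem int_of_integral_rat {z : ℂ} (hz : IsIntegral ℤ z) {q : ℚ} (hq : (q : ℂ) = z) :
    ∃ N : ℤ, (N : ℂ) = z := by
  have h1 : IsIntegral ℤ q := by
    rw [← hq] at hz
    have h2 : IsIntegral ℤ (algebraMap ℚ ℂ q) := by simpa using hz
    exact (isIntegral_algebraMap_iff (algebraMap ℚ ℂ).injective).1 h2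
  obtain ⟨N, hN⟩ := IsIntegrallyClosed.isIntegral_iff.1 h1
  refine ⟨N, ?_⟩
  rw [← hq, ← hN]
  simp

theorem integral_esymm {M : ℕ} (α : Fin M → ℂ) (h : ∀ i, IsIntegral ℤ (α i)) (k : ℕ) :
    IsIntegral ℤ (MvPolynomial.aeval α (MvPolynomial.esymm (Fin M) ℤ k)) := by
  rw [MvPolynomial.esymm, map_sum]
  refine IsIntegral.sum _ fun t _ => ?_
  rw [map_prod]
  refine IsIntegral.prod _ fun i _ => ?_
  simpa using h i

theorem esymm_int {M : ℕ} (α : Fin M → ℂ) (h : ∀ i, IsIntegral ℤ (α i))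
    (hp : ∀ r : ℕ, 1 ≤ r → ∃ N : ℤ, (N : ℂ) = ∑ i, α i ^ r) (k : ℕ) :
    ∃ N : ℤ, (N : ℂ) = MvPolynomial.aeval α (MvPolynomial.esymm (Fin M) ℤ k) := by
  induction k using Nat.strong_induction_on with
  | _ k ih =>
    rcases Nat.eq_zero_or_pos k with rfl | hk
    · exact ⟨1, by simp⟩
    · have h1 := congrArg (MvPolynomial.aeval α) (MvPolynomial.mul_esymm_eq_sum (Fin M) ℤ k)
      have h2 : ∀ a ∈ (antidiagonal k).filter (fun a => a.1 < k), ∃ N : ℤ, (N : ℂ) =
          MvPolynomial.aeval α ((-1) ^ a.1 * MvPolynomial.esymm (Fin M) ℤ a.1 *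
            MvPolynomial.psum (Fin M) ℤ a.2) := by
        intro a ha
        rw [mem_filter, HasAntidiagonal.mem_antidiagonal] at ha
        obtain ⟨N1, hN1⟩ := ih a.1 ha.2
        obtain ⟨N2, hN2⟩ := hp a.2 (by omega)
        refine ⟨(-1) ^ a.1 * N1 * N2, ?_⟩
        rw [map_mul, map_mul, ← hN1]
        simp only [MvPolynomial.psum, map_sum, map_pow, MvPolynomial.aeval_X, map_neg, map_one]
        rw [← hN2]
        push_cast
        ring
      choose! f hf using h2
      have h3 : (k : ℂ) * MvPolynomial.aeval α (MvPolynomial.esymm (Fin M) ℤ k) =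
          (((-1) ^ (k + 1) * ∑ a ∈ (antidiagonal k).filter (fun a => a.1 < k), f a : ℤ) : ℂ) := by
        rw [map_mul, map_mul, map_sum] at h1
        rw [map_natCast] at h1
        rw [h1]
        push_cast
        rw [sum_congr rfl fun a ha => (hf a ha).symm]
        simp
      have hk0 : (k : ℂ) ≠ 0 := by exact_mod_cast hk.ne'
      refine int_of_integral_rat (integral_esymm α h k)
        (q := (((-1) ^ (k + 1) * ∑ a ∈ (antidiagonal k).filter (fun a => a.1 < k), f a : ℤ) : ℚ) / k)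
        ?_
      rw [eq_comm, ← mul_right_inj' hk0, h3]
      push_cast
      field_simp

end INTP

open INTP in
theorem stmt_INTP : Stmt_INTP := by
  intro M α hα hp
  have h1 : ∀ k : ℕ, ∃ N : ℤ, (N : ℂ) = (∏ i, (X - C (α i)) : ℂ[X]).coeff k := by
    intro k
    have h0 : (∏ i, (X - C (α i)) : ℂ[X]) = ((univ.val.map α).map fun t => X - C t).prod := by
      rw [Multiset.map_map]
      rfl
    rw [h0]
    by_cases hk : k ≤ Multiset.card (univ.val.map α)
    · rw [Multiset.prod_X_sub_C_coeff _ hk, ← MvPolynomial.aeval_esymm_eq_multiset_esymm (Fin M) ℤ]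
      obtain ⟨N, hN⟩ := esymm_int α hα hp (Multiset.card (univ.val.map α) - k)
      refine ⟨(-1) ^ (Multiset.card (univ.val.map α) - k) * N, ?_⟩
      rw [← hN]
      push_cast
      ring
    · refine ⟨0, ?_⟩
      rw [coeff_eq_zero_of_natDegree_lt]
      · simp
      · rw [natDegree_multiset_prod_X_sub_C_eq_card]
        omega
  choose f hf using h1
  refine ⟨∑ k ∈ range ((∏ i, (X - C (α i)) : ℂ[X]).natDegree + 1), C (f k) * X ^ k, ?_⟩
  rw [Polynomial.map_sum]
  conv_rhs => rw [as_sum_range_C_mul_X_pow (∏ i, (X - C (α i)) : ℂ[X])]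
  refine sum_congr rfl fun k _ => ?_
  rw [← hf k]
  simp

end Pool.Agent.Work.ES
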