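import Pool.Agent.Work.MP_223b32_es.Interface

/-!
# Block NCC: the number of noncubes
-/

namespace Pool.Agent.Work.ES

open Finset Polynomial

theorem stmt_NCC : Stmt_NCC := by
  classical
  intro K _ _ hK
  set n := Fintype.card K with hn
  have hn1 : 1 < n := Fintype.one_lt_card
  set d := (n - 1) / 3 with hd
  have h3d : 3 * d = n - 1 := by omega
  have hd0 : 0 < d := by omega
  -- a primitive root of order d
  obtain ⟨g, hg⟩ := IsCyclic.exists_generator (α := Kˣ)
  have hog : orderOf g = n - 1 := by
    rw [orderOf_eq_card_of_forall_mem_zpowers hg, Nat.card_eq_fintype_card, Fintype.card_units]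
  have hprim : IsPrimitiveRoot (g ^ 3) d := by
    have h1 : IsPrimitiveRoot g (n - 1) := by
      rw [← hog]
      exact IsPrimitiveRoot.orderOf g
    exact h1.pow (by omega) h3d.symm
  have hprimK : IsPrimitiveRoot ((g ^ 3 : Kˣ) : K) d := IsPrimitiveRoot.coe_units_iff.2 hprim
  have hcard : (nthRootsFinset d (1 : K)).card = d := hprimK.card_nthRootsFinset
  have hset : (univ.filter fun w : K => NC w) =
      (univ.erase (0 : K)) \ nthRootsFinset d (1 : K) := by
    ext w
    simp only [mem_filter, mem_univ, true_and, mem_sdiff, mem_erase, ne_eq, and_true,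
      mem_nthRootsFinset hd0, NC, ← hn, ← hd]
  have hsub : nthRootsFinset d (1 : K) ⊆ univ.erase (0 : K) := by
    intro w hw
    rw [mem_nthRootsFinset hd0] at hw
    rw [mem_erase]
    refine ⟨?_, mem_univ _⟩
    rintro rfl
    rw [zero_pow hd0.ne'] at hw
    exact zero_ne_one hw
  have hc : Nat.card {w : K // NC w} = (n - 1) - d := by
    rw [Nat.card_eq_fintype_card, Fintype.card_subtype, hset, card_sdiff_of_subset hsub, hcard,
      card_erase_of_mem (mem_univ _), card_univ]
  rw [hc]
  omega

end Pool.Agent.Work.ES
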